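import Mathlib
import Pool.Agent.Helper66.CapCover.Union
import Pool.Agent.Helper66.CapCover.Lower
import Pool.Agent.Helper66.CapCover.Compact
import Pool.Agent.Helper66.CapBig.Approach
import Pool.Agent.Helper66.CapBig.Product
import Pool.Agent.Helper66.CapBig.Sufficient

set_option autoImplicit false

open Finset
open scoped InnerProductSpace

namespace Pool.Agent.Results.MP_7917db_co.ExactRadius

/-- The closed caps of angular radius `r` centred at the points of `X` cover the unit sphere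
`S^{n-1}` of `ℝⁿ`: every unit vector `y` satisfies `⟨x, y⟩ ≥ cos r` for some `x ∈ X`. -/
def Covers {n : ℕ} (X : Finset (EuclideanSpace ℝ (Fin n))) (r : ℝ) : Prop :=
  ∀ y : EuclideanSpace ℝ (Fin n), ‖y‖ = 1 → ∃ x ∈ X, Real.cos r ≤ ⟪x, y⟫_ℝ

/-- The angular radii `r ∈ [0, π]` such that `S^{n-1}` can be covered by at most `m` closed caps of
angular radius `r` (centred at points of `S^{n-1}`). -/
def radii (n m : ℕ) : Set ℝ :=
  {r | 0 ≤ r ∧ r ≤ Real.pi ∧ ∃ X : Finset (EuclideanSpace ℝ (Fin n)),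
    X.card ≤ m ∧ (∀ x ∈ X, ‖x‖ = 1) ∧ Covers X r}

/-- `r(n,k)`: the least angular radius of `n + k` equal caps covering `S^{n-1}`. -/
noncomputable def capRadius (n k : ℕ) : ℝ := sInf (radii n (n + k))

/-- The sum of the squares of the parts of the most balanced partition of `n` into `k` parts
(`n mod k` parts equal to `⌊n/k⌋ + 1`, the others equal to `⌊n/k⌋`). -/
def balancedSq (n k : ℕ) : ℕ := (n % k) * (n / k + 1) ^ 2 + (k - n % k) * (n / k) ^ 2

/-- `X` is the union of `k` sets `B c`, each consisting of the `d c + 1` vertices of a regular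
simplex inscribed in the unit sphere of its linear span (unit vectors with pairwise inner products
`-1/d c`), where vectors of different sets are orthogonal, every `d c` is `⌊n/k⌋` or `⌊n/k⌋ + 1`, and
the `d c` add up to `n`. -/
def IsBalancedUnion (n k : ℕ) (X : Finset (EuclideanSpace ℝ (Fin n))) : Prop :=
  ∃ (d : Fin k → ℕ) (B : Fin k → Finset (EuclideanSpace ℝ (Fin n))),
    ∑ c, d c = n ∧ (∀ c, d c = n / k ∨ d c = n / k + 1) ∧
    (∀ c, (B c).card = d c + 1) ∧ (∀ c, ∀ x ∈ B c, ‖x‖ = 1) ∧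
    (∀ c, ∀ x ∈ B c, ∀ y ∈ B c, x ≠ y → ⟪x, y⟫_ℝ = -(1 / (d c : ℝ))) ∧
    (∀ c c', c ≠ c' → ∀ x ∈ B c, ∀ y ∈ B c', ⟪x, y⟫_ℝ = 0) ∧
    X = univ.biUnion B

theorem exists_unit {n : ℕ} (hn : 0 < n) : ∃ u : EuclideanSpace ℝ (Fin n), ‖u‖ = 1 :=
  ⟨EuclideanSpace.basisFun (Fin n) ℝ ⟨0, hn⟩, (EuclideanSpace.basisFun (Fin n) ℝ).norm_eq_one _⟩

theorem exists_enum {n m : ℕ} (X : Finset (EuclideanSpace ℝ (Fin n))) (hX : X.card ≤ m)
    (hne : X.Nonempty) :
    ∃ x : Fin m → EuclideanSpace ℝ (Fin n), univ.image x = X := by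
  classical
  obtain ⟨z₀, hz₀⟩ := hne
  refine ⟨fun i => if h : (i : ℕ) < X.card then (X.equivFin.symm ⟨i, h⟩ : X) else z₀, ?_⟩
  ext z
  simp only [Finset.mem_image, Finset.mem_univ, true_and]
  constructor
  · rintro ⟨i, rfl⟩
    by_cases h : (i : ℕ) < X.card
    · simp [h]
    · simp [h, hz₀]
  · intro hz
    refine ⟨⟨(X.equivFin ⟨z, hz⟩ : ℕ), lt_of_lt_of_le (X.equivFin ⟨z, hz⟩).2 hX⟩, ?_⟩
    simp

theorem covers_enum {n m : ℕ} {X : Finset (EuclideanSpace ℝ (Fin n))}
    {x : Fin m → EuclideanSpace ℝ (Fin n)} (h : univ.image x = X) {r : ℝ} (hX : Covers X r)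
    (y : EuclideanSpace ℝ (Fin n)) (hy : ‖y‖ = 1) : ∃ i, Real.cos r ≤ ⟪x i, y⟫_ℝ := by
  obtain ⟨z, hz, hzy⟩ := hX y hy
  rw [← h] at hz
  obtain ⟨i, -, rfl⟩ := Finset.mem_image.1 hz
  exact ⟨i, hzy⟩

theorem mul_balancedSq (n k : ℕ) (hk : 1 ≤ k) :
    (k : ℝ) * balancedSq n k = (n : ℝ) ^ 2 + (n % k : ℕ) * ((k : ℝ) - (n % k : ℕ)) := by
  have hlt : n % k < k := Nat.mod_lt _ (by omega)
  have h4 := Nat.div_add_mod n k
  set q := n / k with hq
  set ρ := n % k with hρ
  have hn : (n : ℝ) = k * q + ρ := by rw [← h4]; push_cast; ring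
  have hs : ((k - ρ : ℕ) : ℝ) = (k : ℝ) - ρ := by
    rw [Nat.cast_sub hlt.le]
  have hb : (balancedSq n k : ℝ) = ρ * (q + 1) ^ 2 + (k - ρ) * q ^ 2 := by
    unfold balancedSq
    rw [← hq, ← hρ]
    push_cast
    rw [hs]
  rw [hb, hn]; ring

theorem balancedSq_le' (n k : ℕ) (hk : 1 ≤ k) :
    (balancedSq n k : ℝ) ≤ (n : ℝ) ^ 2 / k + k / 4 := by
  have e := mul_balancedSq n k hk
  have hk0 : (0 : ℝ) < k := by exact_mod_cast hk
  have h1 : (balancedSq n k : ℝ) = ((n : ℝ) ^ 2 + (n % k : ℕ) * ((k : ℝ) - (n % k : ℕ))) / k := by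
    rw [← e]; field_simp
  rw [h1, div_le_iff₀ hk0]
  have h2 : ((n : ℝ) ^ 2 / k + k / 4) * k = (n : ℝ) ^ 2 + k ^ 2 / 4 := by field_simp
  rw [h2]
  nlinarith [sq_nonneg ((k : ℝ) - 2 * (n % k : ℕ))]

theorem balancedSq_pos (n k : ℕ) (hk : 1 ≤ k) (hkn : k ≤ n) : (0 : ℝ) < balancedSq n k := by
  have h1 : 0 < balancedSq n k := by
    have hlt : n % k < k := Nat.mod_lt _ (by omega)
    have hq1 : 1 ≤ n / k := Nat.div_pos hkn (by omega)
    have h2 : 0 < (k - n % k) * (n / k) ^ 2 := Nat.mul_pos (by omega) (by positivity)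
    unfold balancedSq
    omega
  exact_mod_cast h1

/-- Every covering with cosine at least `1/√s` is a balanced union of orthogonal simplices. -/
theorem structure_of_cover {n k : ℕ} (hk : 1 ≤ k) (hkn : k ≤ n) (h : k ≤ 2 ∨ 10 * k ^ 4 ≤ n)
    (f : Fin (n + k) → EuclideanSpace ℝ (Fin n)) (hf : ∀ i, ‖f i‖ = 1) (c : ℝ)
    (hc : 1 / √(balancedSq n k : ℝ) ≤ c)
    (hcov : ∀ y : EuclideanSpace ℝ (Fin n), ‖y‖ = 1 → ∃ i, c ≤ ⟪f i, y⟫_ℝ) :
    c = 1 / √(balancedSq n k : ℝ) ∧ IsBalancedUnion n k (univ.image f) := by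
  classical
  have hn : 0 < n := by omega
  have hW := balancedSq_pos n k hk hkn
  have hsW : 0 < √(balancedSq n k : ℝ) := Real.sqrt_pos.2 hW
  have hc0 : 0 < c := lt_of_lt_of_le (by positivity) hc
  have hcov' : ∀ y : EuclideanSpace ℝ (Fin n), y ≠ 0 → ∃ i, c * ‖y‖ ≤ ⟪f i, y⟫_ℝ := by
    intro y hy
    have hyn : 0 < ‖y‖ := norm_pos_iff.2 hy
    obtain ⟨i, hi⟩ := hcov (‖y‖⁻¹ • y)
      (by rw [norm_smul, norm_inv, norm_norm, inv_mul_cancel₀ hyn.ne'])
    refine ⟨i, ?_⟩
    rw [inner_smul_right] at hi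
    calc c * ‖y‖ ≤ (‖y‖⁻¹ * ⟪f i, y⟫_ℝ) * ‖y‖ := mul_le_mul_of_nonneg_right hi hyn.le
      _ = ⟪f i, y⟫_ℝ := by field_simp
  have hpos : ∀ y : EuclideanSpace ℝ (Fin n), y ≠ 0 → ∃ i, 0 < ⟪f i, y⟫_ℝ := by
    intro y hy
    obtain ⟨i, hi⟩ := hcov' y hy
    exact ⟨i, lt_of_lt_of_le (mul_pos hc0 (norm_pos_iff.2 hy)) hi⟩
  have hR : ∀ y : EuclideanSpace ℝ (Fin n), (∀ i, ⟪f i, y⟫_ℝ ≤ 1) → ‖y‖ ≤ 1 / c := by
    intro y hy
    by_cases h0 : y = 0
    · rw [h0, norm_zero]; positivity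
    · obtain ⟨i, hi⟩ := hcov' y h0
      rw [le_div_iff₀ hc0, mul_comm]
      exact hi.trans (hy i)
  have hRW : (1 / c) ^ 2 ≤ balancedSq n k := by
    have h1 : 1 / c ≤ √(balancedSq n k : ℝ) := by
      rw [div_le_iff₀ hc0]
      rw [div_le_iff₀ hsW] at hc
      linarith
    calc (1 / c) ^ 2 ≤ √(balancedSq n k : ℝ) ^ 2 := pow_le_pow_left₀ (by positivity) h1 2
      _ = _ := Real.sq_sqrt hW.le
  have hgood : Pool.Agent.Helper66.CapBig.Good n k f (1 / c) := by
    rcases h with h | h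
    · exact Pool.Agent.Helper66.CapBig.good_small hk h f _
    · by_cases h3 : k ≤ 2
      · exact Pool.Agent.Helper66.CapBig.good_small hk h3 f _
      · exact Pool.Agent.Helper66.CapBig.good_large (by omega) h f hf _ (by positivity)
          (hRW.trans (balancedSq_le' n k hk))
  obtain ⟨g, β, v, hPD, hv⟩ := Pool.Agent.Helper66.CapBig.exists_PD_of_good hn f
    (fun j => (hf j).le) hpos (1 / c) hR hgood
  -- the group sizes
  have hcard : ∀ c', 1 ≤ (univ.filter fun l => g l = c').card := by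
    intro c'
    rw [Nat.one_le_iff_ne_zero, Finset.card_ne_zero]
    by_contra hc'
    rw [Finset.not_nonempty_iff_eq_empty] at hc'
    have h1 := hPD.sum_one c'
    rw [hc', Finset.sum_empty] at h1
    exact zero_ne_one h1
  let d : Fin k → ℕ := fun c' => (univ.filter fun l => g l = c').card - 1
  have hd : ∀ c', (univ.filter fun l => g l = c').card = d c' + 1 := by
    intro c'
    have := hcard c'
    simp only [d]
    omega
  have hdR : ∀ c', (((univ.filter fun l => g l = c').card : ℝ) - 1) = d c' := by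
    intro c'
    rw [hd c']
    push_cast
    ring
  have hsum : ∑ c', d c' = n := by
    have h1 : (univ : Finset (Fin (n + k))).card =
        ∑ c', (univ.filter fun l => g l = c').card :=
      Finset.card_eq_sum_card_fiberwise (fun _ _ => mem_univ _)
    rw [Finset.sum_congr rfl (fun c' _ => hd c'), Finset.sum_add_distrib] at h1
    simp at h1
    omega
  have hb := Pool.Agent.Helper66.CapBig.pd_bound hPD (fun j => (hf j).le) (1 / c)
    (fun T _ => hv T)
  simp_rw [hdR] at hb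
  obtain ⟨hle, hiff⟩ := Pool.Agent.Helper66.CapBig.balanced_of_sum hk d hsum
  have hsame : (Pool.Agent.Helper66.CapCover.Lower.balancedSq n k : ℝ) = balancedSq n k := rfl
  rw [hsame] at hle hiff
  have hWeq : (1 / c) ^ 2 = balancedSq n k := le_antisymm hRW (hle.trans hb)
  have hbal := hiff.1 (le_antisymm hle (hb.trans hRW))
  have hq1 : 1 ≤ n / k := Nat.div_pos hkn (by omega)
  have hd1 : ∀ c', 1 ≤ d c' := by
    intro c'
    rcases hbal c' with h1 | h1 <;> omega
  obtain ⟨hG1, hG2⟩ := Pool.Agent.Helper66.CapBig.pd_equality hPD hf (1 / c) (fun T _ => hv T)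
    (fun c' => by rw [hd c']; have := hd1 c'; omega)
    (by simp_rw [hdR]; exact hRW.trans hle)
  have hinj : Function.Injective f := by
    intro l j hlj
    by_contra hne
    by_cases hg : g l = g j
    · have h1 := hG1 l j hne hg
      rw [hlj, real_inner_self_eq_norm_sq, hf, hdR] at h1
      have h2 : 0 < 1 / (d (g l) : ℝ) := by
        have : (0 : ℝ) < d (g l) := by exact_mod_cast hd1 (g l)
        positivity
      linarith
    · have h1 := hG2 l j hg
      rw [hlj, real_inner_self_eq_norm_sq, hf] at h1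
      norm_num at h1
  constructor
  · have h1 : (1 / c) = √(balancedSq n k : ℝ) := by
      rw [← hWeq, Real.sqrt_sq (by positivity)]
    rw [← h1, one_div_one_div]
  · refine ⟨d, fun c' => (univ.filter fun l => g l = c').image f, hsum, hbal, ?_, ?_, ?_, ?_, ?_⟩
    · intro c'
      rw [Finset.card_image_of_injective _ hinj, hd c']
    · intro c' z hz
      obtain ⟨j, -, rfl⟩ := Finset.mem_image.1 hz
      exact hf j
    · intro c' z hz w hw hne
      obtain ⟨j, hj, rfl⟩ := Finset.mem_image.1 hz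
      obtain ⟨l, hl, rfl⟩ := Finset.mem_image.1 hw
      have hj' := (Finset.mem_filter.1 hj).2
      have hl' := (Finset.mem_filter.1 hl).2
      rw [hG1 j l (fun h => hne (by rw [h])) (by rw [hj', hl']), hdR, hj']
    · intro c' c'' hne z hz w hw
      obtain ⟨j, hj, rfl⟩ := Finset.mem_image.1 hz
      obtain ⟨l, hl, rfl⟩ := Finset.mem_image.1 hw
      have hj' := (Finset.mem_filter.1 hj).2
      have hl' := (Finset.mem_filter.1 hl).2
      exact hG2 j l (by rw [hj', hl']; exact hne)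
    · ext z
      simp only [Finset.mem_image, Finset.mem_univ, true_and, Finset.mem_biUnion,
        Finset.mem_filter]
      constructor
      · rintro ⟨j, rfl⟩
        exact ⟨g j, j, rfl, rfl⟩
      · rintro ⟨c', j, -, rfl⟩
        exact ⟨j, rfl⟩

/-- **Main theorem.**  Let `k ≥ 1` and `n ≥ 10 k⁴`.  The minimum defining `r(n,k)` is attained,
`cos r(n,k) = 1/√s`, where `s` is the sum of squares of the balanced partition of `n` into `k` parts,
and the sets of at most `n + k` points which attain `r(n,k)` are exactly the unions of the vertex sets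
of `k` mutually orthogonal regular simplices of dimensions `⌊n/k⌋` or `⌊n/k⌋ + 1` (adding up to
`n`). -/
theorem result (n k : ℕ) (hk : 1 ≤ k) (hnk : 10 * k ^ 4 ≤ n) :
    capRadius n k ∈ radii n (n + k) ∧
    Real.cos (capRadius n k) = 1 / √(balancedSq n k : ℝ) ∧
    ∀ X : Finset (EuclideanSpace ℝ (Fin n)),
      (X.card ≤ n + k ∧ (∀ x ∈ X, ‖x‖ = 1) ∧ Covers X (capRadius n k)) ↔
        IsBalancedUnion n k X := by
  classical
  have hkn : k ≤ n := by
    have h1 : k ≤ k ^ 4 := Nat.le_self_pow (by norm_num) k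
    omega
  have hn : 0 < n := by omega
  obtain ⟨u0, hu0⟩ := exists_unit hn
  obtain ⟨x, c, hx, hc1, hc2, hcov, hopt⟩ :=
    Pool.Agent.Helper66.CapCover.exists_optimal n (n + k) hn (by omega)
  have hleast : IsLeast (radii n (n + k)) (Real.arccos c) := by
    constructor
    · refine ⟨Real.arccos_nonneg _, Real.arccos_le_pi _, univ.image x, ?_, ?_, ?_⟩
      · refine Finset.card_image_le.trans ?_
        rw [Finset.card_univ, Fintype.card_fin]
      · intro z hz
        obtain ⟨i, -, rfl⟩ := Finset.mem_image.1 hz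
        exact hx i
      · intro y hy
        obtain ⟨i, hi⟩ := hcov y hy
        refine ⟨x i, Finset.mem_image_of_mem _ (mem_univ i), ?_⟩
        rw [Real.cos_arccos hc1 hc2]
        exact hi
    · rintro r ⟨hr0, hrpi, X, hXc, hX1, hXcov⟩
      have hne : X.Nonempty := by
        obtain ⟨z, hz, -⟩ := hXcov u0 hu0
        exact ⟨z, hz⟩
      obtain ⟨f, hf⟩ := exists_enum X hXc hne
      have h1 : Real.cos r ≤ c := hopt f _ (fun i => hX1 _ (by
        rw [← hf]; exact Finset.mem_image_of_mem _ (mem_univ i))) (covers_enum hf hXcov)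
      rw [← Real.arccos_cos hr0 hrpi]
      exact Real.arccos_le_arccos h1
  have hcap : capRadius n k = Real.arccos c := hleast.csInf_eq
  have hcos : Real.cos (capRadius n k) = c := by rw [hcap, Real.cos_arccos hc1 hc2]
  have hlower : 1 / √(balancedSq n k : ℝ) ≤ c := by
    obtain ⟨g, hg, hgc⟩ :=
      Pool.Agent.Helper66.CapCover.Lower.exists_balanced_family n k hk hkn
    exact hopt g _ hg hgc
  -- balanced unions are coverings
  have hsuff : ∀ X : Finset (EuclideanSpace ℝ (Fin n)), IsBalancedUnion n k X →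
      X.card ≤ n + k ∧ (∀ x ∈ X, ‖x‖ = 1) ∧
      ∀ y : EuclideanSpace ℝ (Fin n), ‖y‖ = 1 →
        ∃ x ∈ X, 1 / √(balancedSq n k : ℝ) ≤ ⟪x, y⟫_ℝ := by
    rintro X ⟨d, B, hsum, hbal, hB1, hB2, hB3, hB4, rfl⟩
    have hq1 : 1 ≤ n / k := Nat.div_pos hkn (by omega)
    have hd1 : ∀ c, 1 ≤ d c := by
      intro c
      rcases hbal c with h1 | h1 <;> omega
    refine ⟨?_, ?_, ?_⟩
    · refine Finset.card_biUnion_le.trans ?_
      rw [Finset.sum_congr rfl (fun c _ => hB1 c), Finset.sum_add_distrib, hsum]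
      simp
    · intro z hz
      obtain ⟨c, -, hc⟩ := Finset.mem_biUnion.1 hz
      exact hB2 c z hc
    · intro y hy
      obtain ⟨c, z, hz, hzy⟩ := Pool.Agent.Helper66.CapBig.union_covers_gen (by omega) d hd1 hsum
        hB1 hB2 hB3 hB4 y hy
      refine ⟨z, Finset.mem_biUnion.2 ⟨c, mem_univ c, hz⟩, ?_⟩
      have h1 := (Pool.Agent.Helper66.CapBig.balanced_of_sum hk d hsum).2.2 hbal
      have h2 : (balancedSq n k : ℝ) = ∑ c, (d c : ℝ) ^ 2 := h1
      rw [h2]
      exact hzy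
  have hceq : c = 1 / √(balancedSq n k : ℝ) :=
    (structure_of_cover hk hkn (Or.inr hnk) x hx c hlower hcov).1
  refine ⟨by rw [hcap]; exact hleast.1, by rw [hcos]; exact hceq, ?_⟩
  intro X
  constructor
  · rintro ⟨hXc, hX1, hXcov⟩
    have hne : X.Nonempty := by
      obtain ⟨z, hz, -⟩ := hXcov u0 hu0
      exact ⟨z, hz⟩
    obtain ⟨f, hf⟩ := exists_enum X hXc hne
    have h1 := (structure_of_cover hk hkn (Or.inr hnk) f (fun i => hX1 _ (by
      rw [← hf]; exact Finset.mem_image_of_mem _ (mem_univ i))) c hlower (by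
        rw [← hcos]; exact covers_enum hf hXcov)).2
    rw [hf] at h1
    exact h1
  · intro hX
    obtain ⟨h1, h2, h3⟩ := hsuff X hX
    refine ⟨h1, h2, ?_⟩
    intro y hy
    rw [hcos, hceq]
    exact h3 y hy

end Pool.Agent.Results.MP_7917db_co.ExactRadius
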