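import Mathlib
import Pool.Agent.Helper66.CapCover.Union
import Pool.Agent.Helper66.CapCover.Lower
import Pool.Agent.Helper66.CapCover.Compact

set_option autoImplicit false

open Finset
open scoped InnerProductSpace

namespace Pool.Agent.Results.MP_7917db_co.SharpCaps

/-- The closed caps of angular radius `r` centred at the points of `X` cover the unit sphere
`S^{n-1}` of `ℝⁿ`: every unit vector `y` satisfies `⟨x, y⟩ ≥ cos r` for some `x ∈ X`. -/
def Covers {n : ℕ} (X : Finset (EuclideanSpace ℝ (Fin n))) (r : ℝ) : Prop :=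
  ∀ y : EuclideanSpace ℝ (Fin n), ‖y‖ = 1 → ∃ x ∈ X, Real.cos r ≤ ⟪x, y⟫_ℝ

/-- The angular radii `r ∈ [0, π]` such that `S^{n-1}` can be covered by at most `m` closed caps of
angular radius `r` (centred at points of `S^{n-1}`). -/
def radii (n m : ℕ) : Set ℝ :=
  {r | 0 ≤ r ∧ r ≤ Real.pi ∧ ∃ X : Finset (EuclideanSpace ℝ (Fin n)),
    X.card ≤ m ∧ (∀ x ∈ X, ‖x‖ = 1) ∧ Covers X r}

/-- `r(n,k)`: the least angular radius of `n + k` equal caps covering `S^{n-1}`. -/
noncomputable def capRadius (n k : ℕ) : ℝ := sInf (radii n (n + k))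

/-- The sum of the squares of the parts of the most balanced partition of `n` into `k` parts
(`n mod k` parts equal to `⌊n/k⌋ + 1`, the others equal to `⌊n/k⌋`). -/
def balancedSq (n k : ℕ) : ℕ := (n % k) * (n / k + 1) ^ 2 + (k - n % k) * (n / k) ^ 2

/-- `X` is the union of `k` sets `B c`, each consisting of the `⌊n/k⌋ + 1` vertices of a regular
simplex inscribed in the unit sphere of its linear span (unit vectors with pairwise inner products
`-k/n`), and vectors of different sets are orthogonal. -/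
def IsSimplexUnion (n k : ℕ) (X : Finset (EuclideanSpace ℝ (Fin n))) : Prop :=
  ∃ B : Fin k → Finset (EuclideanSpace ℝ (Fin n)),
    (∀ c, (B c).card = n / k + 1) ∧ (∀ c, ∀ x ∈ B c, ‖x‖ = 1) ∧
    (∀ c, ∀ x ∈ B c, ∀ y ∈ B c, x ≠ y → ⟪x, y⟫_ℝ = -((k : ℝ) / n)) ∧
    (∀ c c', c ≠ c' → ∀ x ∈ B c, ∀ y ∈ B c', ⟪x, y⟫_ℝ = 0) ∧
    X = univ.biUnion B

theorem exists_unit {n : ℕ} (hn : 0 < n) : ∃ u : EuclideanSpace ℝ (Fin n), ‖u‖ = 1 :=
  ⟨EuclideanSpace.basisFun (Fin n) ℝ ⟨0, hn⟩, (EuclideanSpace.basisFun (Fin n) ℝ).norm_eq_one _⟩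

theorem exists_enum {n m : ℕ} (X : Finset (EuclideanSpace ℝ (Fin n))) (hX : X.card ≤ m)
    (hne : X.Nonempty) :
    ∃ x : Fin m → EuclideanSpace ℝ (Fin n), univ.image x = X := by
  classical
  obtain ⟨z₀, hz₀⟩ := hne
  refine ⟨fun i => if h : (i : ℕ) < X.card then (X.equivFin.symm ⟨i, h⟩ : X) else z₀, ?_⟩
  ext z
  simp only [Finset.mem_image, Finset.mem_univ, true_and]
  constructor
  · rintro ⟨i, rfl⟩
    by_cases h : (i : ℕ) < X.card
    · simp [h]
    · simp [h, hz₀]
  · intro hz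
    refine ⟨⟨(X.equivFin ⟨z, hz⟩ : ℕ), lt_of_lt_of_le (X.equivFin ⟨z, hz⟩).2 hX⟩, ?_⟩
    simp

theorem covers_enum {n m : ℕ} {X : Finset (EuclideanSpace ℝ (Fin n))}
    {x : Fin m → EuclideanSpace ℝ (Fin n)} (h : univ.image x = X) {r : ℝ} (hX : Covers X r)
    (y : EuclideanSpace ℝ (Fin n)) (hy : ‖y‖ = 1) : ∃ i, Real.cos r ≤ ⟪x i, y⟫_ℝ := by
  obtain ⟨z, hz, hzy⟩ := hX y hy
  rw [← h] at hz
  obtain ⟨i, -, rfl⟩ := Finset.mem_image.1 hz
  exact ⟨i, hzy⟩

theorem balancedSq_of_dvd {n k : ℕ} (hk : 0 < k) (hn : 0 < n) (h : k ∣ n) :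
    1 / √(balancedSq n k : ℝ) = √(k : ℝ) / n := by
  obtain ⟨d, rfl⟩ := h
  have hd : 0 < d := Nat.pos_of_mul_pos_left hn
  have hk' : (0 : ℝ) < k := by exact_mod_cast hk
  have hd' : (0 : ℝ) < d := by exact_mod_cast hd
  have h1 : (balancedSq (k * d) k : ℝ) = k * (d : ℝ) ^ 2 := by
    unfold balancedSq
    rw [Nat.mul_mod_right, Nat.mul_div_cancel_left d hk]
    push_cast
    simp
  rw [h1, Real.sqrt_mul hk'.le, Real.sqrt_sq hd'.le]
  have h2 : √(k : ℝ) * √(k : ℝ) = k := Real.mul_self_sqrt hk'.le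
  have h3 : 0 < √(k : ℝ) := Real.sqrt_pos.2 hk'
  push_cast
  rw [div_eq_div_iff (by positivity) (by positivity)]
  linear_combination (-(d : ℝ)) * h2

theorem balancedSq_le (n k : ℕ) (hk : 1 ≤ k) (hkn : k ≤ n) :
    8 * ((k : ℝ) * balancedSq n k) ≤ 9 * (n : ℝ) ^ 2 := by
  have hlt : n % k < k := Nat.mod_lt _ (by omega)
  have hq1 : 1 ≤ n / k := Nat.div_pos hkn (by omega)
  have h4 := Nat.div_add_mod n k
  set q := n / k with hq
  set ρ := n % k with hρ
  have hn : (n : ℝ) = k * q + ρ := by rw [← h4]; push_cast; ring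
  have hs : ((k - ρ : ℕ) : ℝ) = (k : ℝ) - ρ := by
    rw [Nat.cast_sub hlt.le]
  have hb : (balancedSq n k : ℝ) = ρ * (q + 1) ^ 2 + (k - ρ) * q ^ 2 := by
    unfold balancedSq
    rw [← hq, ← hρ]
    push_cast
    rw [hs]
  have hk0 : (0 : ℝ) ≤ k := by positivity
  have hρ0 : (0 : ℝ) ≤ ρ := by positivity
  have hq1' : (1 : ℝ) ≤ q := by exact_mod_cast hq1
  have e : (k : ℝ) * balancedSq n k = (n : ℝ) ^ 2 + ρ * (k - ρ) := by
    rw [hb, hn]; ring
  rw [e, hn]
  have h5 : (k : ℝ) + ρ ≤ k * q + ρ := by nlinarith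
  nlinarith [sq_nonneg ((k : ℝ) - 3 * ρ), mul_self_nonneg ((k : ℝ) * q + ρ - (k + ρ))]

/-- **Main theorem.**  For `1 ≤ k ≤ n` the minimum defining `r(n,k)` is attained,
`1/√s ≤ cos r(n,k) ≤ √k/n`, where `s` is the sum of squares of the balanced partition of `n` into
`k` parts, and `cos r(n,k) = √k/n` if and only if `k` divides `n`, and the lower bound is always at least
`√(8/9) · √k/n`.  If `k` divides `n`, the sets of
at most `n + k` points which attain `r(n,k)` are exactly the unions of the vertex sets of `k`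
mutually orthogonal regular `(n/k)`-simplices. -/
theorem result (n k : ℕ) (hk : 1 ≤ k) (hkn : k ≤ n) :
    capRadius n k ∈ radii n (n + k) ∧
    √(8 / 9) * (√(k : ℝ) / n) ≤ 1 / √(balancedSq n k : ℝ) ∧
    1 / √(balancedSq n k : ℝ) ≤ Real.cos (capRadius n k) ∧
    Real.cos (capRadius n k) ≤ √(k : ℝ) / n ∧
    (Real.cos (capRadius n k) = √(k : ℝ) / n ↔ k ∣ n) ∧
    (k ∣ n → ∀ X : Finset (EuclideanSpace ℝ (Fin n)),
      (X.card ≤ n + k ∧ (∀ x ∈ X, ‖x‖ = 1) ∧ Covers X (capRadius n k)) ↔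
        IsSimplexUnion n k X) := by
  classical
  have hn : 0 < n := by omega
  have hn' : (0 : ℝ) < n := by exact_mod_cast hn
  have hk' : (0 : ℝ) < k := by exact_mod_cast hk
  have hcast : (((n + k : ℕ) : ℝ) - n) = k := by push_cast; ring
  obtain ⟨u0, hu0⟩ := exists_unit hn
  obtain ⟨x, c, hx, hc1, hc2, hcov, hopt⟩ :=
    Pool.Agent.Helper66.CapCover.exists_optimal n (n + k) hn (by omega)
  have hleast : IsLeast (radii n (n + k)) (Real.arccos c) := by
    constructor
    · refine ⟨Real.arccos_nonneg _, Real.arccos_le_pi _, univ.image x, ?_, ?_, ?_⟩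
      · refine Finset.card_image_le.trans ?_
        rw [Finset.card_univ, Fintype.card_fin]
      · intro z hz
        obtain ⟨i, -, rfl⟩ := Finset.mem_image.1 hz
        exact hx i
      · intro y hy
        obtain ⟨i, hi⟩ := hcov y hy
        refine ⟨x i, Finset.mem_image_of_mem _ (mem_univ i), ?_⟩
        rw [Real.cos_arccos hc1 hc2]
        exact hi
    · rintro r ⟨hr0, hrpi, X, hXc, hX1, hXcov⟩
      have hne : X.Nonempty := by
        obtain ⟨z, hz, -⟩ := hXcov u0 hu0
        exact ⟨z, hz⟩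
      obtain ⟨f, hf⟩ := exists_enum X hXc hne
      have h1 : Real.cos r ≤ c := hopt f _ (fun i => hX1 _ (by
        rw [← hf]; exact Finset.mem_image_of_mem _ (mem_univ i))) (covers_enum hf hXcov)
      rw [← Real.arccos_cos hr0 hrpi]
      exact Real.arccos_le_arccos h1
  have hcap : capRadius n k = Real.arccos c := hleast.csInf_eq
  have hcos : Real.cos (capRadius n k) = c := by rw [hcap, Real.cos_arccos hc1 hc2]
  have hupper : c ≤ √(k : ℝ) / n := by
    obtain ⟨e, he, hei⟩ := Pool.Agent.Helper66.CapCover.cover_bound x (fun j => (hx j).le) hn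
      (by omega)
    rw [hcast] at hei
    obtain ⟨i, hi⟩ := hcov e he
    exact hi.trans (hei i)
  have hlower : 1 / √(balancedSq n k : ℝ) ≤ c := by
    obtain ⟨g, hg, hgc⟩ :=
      Pool.Agent.Helper66.CapCover.Lower.exists_balanced_family n k hk hkn
    exact hopt g _ hg hgc
  -- structure of coverings with cosine `√k/n`
  have hstruct : ∀ f : Fin (n + k) → EuclideanSpace ℝ (Fin n), (∀ i, ‖f i‖ = 1) →
      (∀ y : EuclideanSpace ℝ (Fin n), ‖y‖ = 1 → ∃ i, √(k : ℝ) / n ≤ ⟪f i, y⟫_ℝ) →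
      k ∣ n ∧ IsSimplexUnion n k (univ.image f) := by
    intro f hf hfc
    obtain ⟨⟨β, hβ⟩, hsum⟩ := Pool.Agent.Helper66.CapCover.equality_gram f hf hn (by omega)
      (by rw [hcast]; exact hfc)
    rw [hcast] at hβ
    exact Pool.Agent.Helper66.CapCover.blocks_of_gram hk hn f hf β hβ hsum
  refine ⟨?_, ?_, by rw [hcos]; exact hlower, by rw [hcos]; exact hupper, ?_, ?_⟩
  · rw [hcap]; exact hleast.1
  · have hs : (0 : ℝ) < balancedSq n k := by
      have h1 : 0 < balancedSq n k := by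
        have hlt : n % k < k := Nat.mod_lt _ (by omega)
        have hq1 : 1 ≤ n / k := Nat.div_pos hkn (by omega)
        have h2 : 0 < (k - n % k) * (n / k) ^ 2 := Nat.mul_pos (by omega) (by positivity)
        unfold balancedSq
        omega
      exact_mod_cast h1
    have h8 := balancedSq_le n k hk hkn
    rw [← mul_div_assoc, div_le_div_iff₀ hn' (Real.sqrt_pos.2 hs), one_mul,
      ← Real.sqrt_mul (by norm_num), ← Real.sqrt_mul (by positivity)]
    apply Real.sqrt_le_iff.2
    constructor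
    · exact hn'.le
    · linarith
  · rw [hcos]
    constructor
    · intro h
      exact (hstruct x hx (by rw [← h]; exact hcov)).1
    · intro h
      rw [balancedSq_of_dvd hk hn h] at hlower
      exact le_antisymm hupper hlower
  · intro hdvd X
    have hc : c = √(k : ℝ) / n := by
      rw [balancedSq_of_dvd hk hn hdvd] at hlower
      exact le_antisymm hupper hlower
    constructor
    · rintro ⟨hXc, hX1, hXcov⟩
      have hne : X.Nonempty := by
        obtain ⟨z, hz, -⟩ := hXcov u0 hu0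
        exact ⟨z, hz⟩
      obtain ⟨f, hf⟩ := exists_enum X hXc hne
      have h1 := (hstruct f (fun i => hX1 _ (by
        rw [← hf]; exact Finset.mem_image_of_mem _ (mem_univ i))) (by
          rw [← hc, ← hcos]; exact covers_enum hf hXcov)).2
      rw [hf] at h1
      exact h1
    · rintro ⟨B, hB1, hB2, hB3, hB4, rfl⟩
      obtain ⟨d, hd⟩ := hdvd
      have hdpos : 0 < d := by
        rcases Nat.eq_zero_or_pos d with h | h
        · subst h; omega
        · exact h
      have hnk : n / k = d := by rw [hd]; exact Nat.mul_div_cancel_left d hk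
      have hkd : (k : ℝ) / n = 1 / (d : ℝ) := by
        have hd' : (0 : ℝ) < d := by exact_mod_cast hdpos
        have : (n : ℝ) = k * d := by rw [hd]; push_cast; ring
        rw [this]; field_simp
      refine ⟨?_, ?_, ?_⟩
      · refine Finset.card_biUnion_le.trans ?_
        have h1 : ∑ c, (B c).card = k * (d + 1) := by
          rw [Finset.sum_congr rfl (fun c _ => (hB1 c).trans (by rw [hnk]))]
          simp
        rw [h1]
        have : n + k = k * (d + 1) := by rw [hd]; ring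
        exact this.symm.le
      · intro z hz
        obtain ⟨c, -, hc⟩ := Finset.mem_biUnion.1 hz
        exact hB2 c z hc
      · intro y hy
        rw [hcos, hc]
        obtain ⟨c, z, hz, hzy⟩ := Pool.Agent.Helper66.CapCover.union_covers (B := B) hd hk hdpos
          (fun c => (hB1 c).trans (by rw [hnk])) hB2
          (fun c z hz w hw hne => by rw [hB3 c z hz w hw hne, hkd]) hB4 y hy
        exact ⟨z, Finset.mem_biUnion.2 ⟨c, mem_univ c, hz⟩, hzy⟩

end Pool.Agent.Results.MP_7917db_co.SharpCaps
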